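import Pool.Agent.H30.KuzB

open Pool.Agent.H30.Kuz

theorem Pool.Agent.Results.MP_720825_lc.Undec.result :
    ¬ ComputablePred fun p : Word × List Word => ExprAll p.1 p.2 :=
  undec
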